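import Pool.Agent.H20.Rkg2

namespace Pool.Agent.Results.MP_49fec2_al.NotResid

open Pool.Agent.H20.Rkg

theorem result : ∃ (L : Set (FreeGroup ℕ)) (k n : ℕ), k < n ∧ Generates L (RelFree L k) ∧
    ∃ g : RelFree L n, g ≠ 1 ∧
      ∀ (N : Subgroup (RelFree L n)) [N.Normal], KGen k (RelFree L n ⧸ N) → g ∈ N :=
  ⟨_, 2, 3, by norm_num, main⟩

end Pool.Agent.Results.MP_49fec2_al.NotResid
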